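import Pool.Agent.W821.TB.Final

/-!
# Forward solutions: continuous dependence in compact sets, uniqueness, rotation, shift
-/

set_option autoImplicit false

namespace Pool.Agent.NH62.LR

open Pool.Agent.W821.TB Filter Topology

variable {n : ℕ} {m : Fin n → ℝ}

theorem lip_of_compact {C : Set (Ph n)} (hC : IsCompact C) (hne : ∀ z ∈ C, ∀ a b, a ≠ b → z.1 a ≠ z.1 b) :
    ∃ L, LipschitzOnWith L (vf m) C := by
  refine LocallyLipschitzOn.exists_lipschitzOnWith_of_compact hC fun z hz => ?_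
  obtain ⟨K, s, hs, hL⟩ := (contDiffAt_vf (m := m) (hne z hz)).exists_lipschitzOnWith
  exact ⟨K, s, mem_nhdsWithin_of_mem_nhds hs, hL⟩

theorem sol_cont {y : ℝ → Ph n} (hy : IsSol m (Set.Ici 0) y) : ContinuousOn y (Set.Ici 0) :=
  fun t ht => (hy t ht).2.continuousWithinAt

/-- continuous dependence on the initial point, for solutions that stay in a compact set without collisions -/
theorem dep {C : Set (Ph n)} (hC : IsCompact C) (hne : ∀ z ∈ C, ∀ a b, a ≠ b → z.1 a ≠ z.1 b) :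
    ∃ L : ℝ, 0 ≤ L ∧ ∀ y y' : ℝ → Ph n, IsSol m (Set.Ici 0) y → IsSol m (Set.Ici 0) y' →
      (∀ t, 0 ≤ t → y t ∈ C) → (∀ t, 0 ≤ t → y' t ∈ C) →
      ∀ t, 0 ≤ t → dist (y t) (y' t) ≤ dist (y 0) (y' 0) * Real.exp (L * t) := by
  obtain ⟨L, hL⟩ := lip_of_compact (m := m) hC hne
  refine ⟨L, L.2, fun y y' hy hy' h h' t ht => ?_⟩
  have key := dist_le_of_trajectories_ODE_of_mem (v := fun _ => vf m) (s := fun _ => C) (K := L) (f := y) (g := y')
    (a := 0) (b := t) (δ := dist (y 0) (y' 0)) (fun _ _ => hL)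
    ((sol_cont hy).mono fun s hs => hs.1) (fun s hs => (hy s hs.1).2.mono fun r hr => hs.1.trans hr)
    (fun s hs => h s hs.1)
    ((sol_cont hy').mono fun s hs => hs.1) (fun s hs => (hy' s hs.1).2.mono fun r hr => hs.1.trans hr)
    (fun s hs => h' s hs.1) le_rfl t ⟨ht, le_rfl⟩
  simpa using key

theorem fwd_smul {y : ℝ → Ph n} (hy : IsSol m (Set.Ici 0) y) {c : ℂ} (hc : ‖c‖ = 1) :
    IsSol m (Set.Ici 0) (fun t => c • y t) := by
  intro t ht
  refine ⟨smul_mem hc (hy t ht).1, ?_⟩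
  have h := (hy t ht).2.const_smul c
  have e : c • (((y t).2, acc m (y t).1) : Ph n) = ((c • y t).2, acc m (c • y t).1) := by
    refine Prod.ext rfl ?_
    funext a
    exact (acc_smul (m := m) c hc (y t).1 a).symm
  rw [e] at h
  exact h

theorem fwd_shift {y : ℝ → Ph n} (hy : IsSol m (Set.Ici 0) y) {τ : ℝ} (hτ : 0 ≤ τ) :
    IsSol m (Set.Ici 0) (fun t => y (t + τ)) := by
  intro t ht
  have ht' : 0 ≤ t := ht
  refine ⟨(hy (t + τ) (add_nonneg ht' hτ)).1, ?_⟩
  have h := (hy (t + τ) (add_nonneg ht' hτ)).2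
  have h2 : HasDerivWithinAt (fun s : ℝ => s + τ) 1 (Set.Ici 0) t := (hasDerivAt_id t).add_const τ |>.hasDerivWithinAt
  have h3 := h.scomp t h2 (fun s hs => add_nonneg hs hτ)
  rw [one_smul] at h3
  exact h3

/-- uniqueness of forward solutions -/
theorem uniq {y y' : ℝ → Ph n} (hy : IsSol m (Set.Ici 0) y) (hy' : IsSol m (Set.Ici 0) y')
    (h0 : y 0 = y' 0) {t : ℝ} (ht : 0 ≤ t) : y t = y' t := by
  have c1 : ContinuousOn y (Set.Icc 0 t) := (sol_cont hy).mono fun s hs => hs.1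
  have c2 : ContinuousOn y' (Set.Icc 0 t) := (sol_cont hy').mono fun s hs => hs.1
  obtain ⟨L, hL⟩ := lip_of_compact (m := m) ((isCompact_Icc.image_of_continuousOn c1).union
    (isCompact_Icc.image_of_continuousOn c2)) (by
      rintro z (⟨s, hs, rfl⟩ | ⟨s, hs, rfl⟩)
      · exact (hy s hs.1).1.1
      · exact (hy' s hs.1).1.1)
  have key := dist_le_of_trajectories_ODE_of_mem (v := fun _ => vf m)
    (s := fun _ => y '' Set.Icc 0 t ∪ y' '' Set.Icc 0 t) (K := L) (f := y) (g := y')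
    (a := 0) (b := t) (δ := 0) (fun _ _ => hL)
    c1 (fun s hs => (hy s hs.1).2.mono fun r hr => hs.1.trans hr)
    (fun s hs => Or.inl ⟨s, ⟨hs.1, hs.2.le⟩, rfl⟩)
    c2 (fun s hs => (hy' s hs.1).2.mono fun r hr => hs.1.trans hr)
    (fun s hs => Or.inr ⟨s, ⟨hs.1, hs.2.le⟩, rfl⟩) (by rw [h0, dist_self]) t ⟨ht, le_rfl⟩
  rw [zero_mul] at key
  exact dist_le_zero.1 key

end Pool.Agent.NH62.LR
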