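import Pool.Agent.NH62.LR.A

/-!
# A tube around the orbit which is moved off itself by the rotations that are not almost `K`-th roots of unity
-/

set_option autoImplicit false

namespace Pool.Agent.NH62.LR

open Pool.Agent.W821.TB Filter Topology

variable {n : ℕ} {m : Fin n → ℝ}

theorem isOpen_noColl (n : ℕ) : IsOpen {z : Ph n | ∀ a b, a ≠ b → z.1 a ≠ z.1 b} := by
  have : {z : Ph n | ∀ a b, a ≠ b → z.1 a ≠ z.1 b} = ⋂ a, ⋂ b, {z : Ph n | a ≠ b → z.1 a ≠ z.1 b} := by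
    ext z; simp
  rw [this]
  refine isOpen_iInter_of_finite fun a => isOpen_iInter_of_finite fun b => ?_
  by_cases hab : a = b
  · have : {z : Ph n | a ≠ b → z.1 a ≠ z.1 b} = Set.univ := by
      ext z; simp [hab]
    rw [this]; exact isOpen_univ
  · have : {z : Ph n | a ≠ b → z.1 a ≠ z.1 b} = {z : Ph n | z.1 a ≠ z.1 b} := by
      ext z; simp [hab]
    rw [this]
    exact isOpen_ne_fun (by fun_prop) (by fun_prop)

theorem tube {x : ℝ → Ph n} (hx : IsSol m Set.univ x) {P : ℝ} (hP : 0 < P) (hper : ∀ t, x (t + P) = x t) {K : ℕ}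
    (hrot : ∀ c : ℂ, ‖c‖ = 1 → ((∀ t, c • x t ∈ Set.range x) ↔ c ^ K = 1)) {ε : ℝ} (hε : 0 < ε) :
    ∃ δ : ℝ, 0 < δ ∧ IsCompact (Metric.cthickening δ (Set.range x)) ∧
      (∀ z ∈ Metric.cthickening δ (Set.range x), ∀ a b, a ≠ b → z.1 a ≠ z.1 b) ∧
      ∀ z ∈ Metric.cthickening δ (Set.range x), ∀ c : ℂ, ‖c‖ = 1 →
        c • z ∈ Metric.cthickening δ (Set.range x) → ‖c ^ K - 1‖ ≤ ε := by
  have hγ : IsCompact (Set.range x) := by
    have h : Function.Periodic x P := hper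
    rw [← h.image_Icc hP 0]
    exact isCompact_Icc.image hx.continuous
  obtain ⟨δ₁, hδ₁, h₁⟩ := hγ.exists_cthickening_subset_open (isOpen_noColl n)
    (by rintro _ ⟨t, rfl⟩; exact (hx.mem t).1)
  have hCc : IsCompact {c : ℂ | ‖c‖ = 1 ∧ ε ≤ ‖c ^ K - 1‖} := by
    have h1 : {c : ℂ | ‖c‖ = 1 ∧ ε ≤ ‖c ^ K - 1‖} = Metric.sphere 0 1 ∩ {c : ℂ | ε ≤ ‖c ^ K - 1‖} := by
      ext c; simp
    rw [h1]
    exact (isCompact_sphere 0 1).inter_right (isClosed_le continuous_const (by fun_prop))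
  set E : Set (Ph n) := (fun p : ℂ × Ph n => p.1 • p.2) '' ({c : ℂ | ‖c‖ = 1 ∧ ε ≤ ‖c ^ K - 1‖} ×ˢ Set.range x) with hE
  have hEc : IsCompact E := (hCc.prod hγ).image (by fun_prop)
  have hdisj : Disjoint E (Set.range x) := by
    rw [Set.disjoint_left]
    rintro _ ⟨⟨c, _⟩, ⟨⟨hc, hcε⟩, ⟨t, rfl⟩⟩, rfl⟩ ⟨s, hs⟩
    have e : (fun τ => c • x τ) = fun τ => x (τ + (s - t)) := by
      refine sol_unique (m := m) (t₀ := t) (hx.smul hc) (hx.shift (s - t)) ?_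
      simp only [add_sub_cancel]
      exact hs.symm
    have hK1 : c ^ K = 1 := (hrot c hc).1 fun τ => ⟨τ + (s - t), (congrFun e τ).symm⟩
    rw [hK1, sub_self, norm_zero] at hcε
    linarith
  obtain ⟨δ₂, hδ₂, h₂⟩ := hdisj.exists_cthickenings hEc hγ.isClosed
  refine ⟨min δ₁ δ₂, lt_min hδ₁ hδ₂, hγ.cthickening, fun z hz => h₁ (Metric.cthickening_mono (min_le_left _ _) _ hz), ?_⟩
  intro z hz c hc hcz
  by_contra hcon
  push Not at hcon
  have hz2 := Metric.cthickening_mono (min_le_right δ₁ δ₂) _ hz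
  have hcz2 := Metric.cthickening_mono (min_le_right δ₁ δ₂) _ hcz
  rw [hγ.cthickening_eq_biUnion_closedBall hδ₂.le] at hz2
  obtain ⟨w, hw, hzw⟩ := Set.mem_iUnion₂.1 hz2
  refine Set.disjoint_left.1 h₂ ?_ hcz2
  rw [hEc.cthickening_eq_biUnion_closedBall hδ₂.le]
  refine Set.mem_iUnion₂.2 ⟨c • w, ⟨(c, w), ⟨⟨hc, hcon.le⟩, hw⟩, rfl⟩, ?_⟩
  rw [Metric.mem_closedBall, dist_smul₀, hc, one_mul]
  exact hzw

end Pool.Agent.NH62.LR
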