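import Mathlib

/-!
# Averages of `exp (-i K θ)` over `2 π`-periodic sets of angles
-/

set_option autoImplicit false

namespace Pool.Agent.NH62.LR

open Filter Topology MeasureTheory Complex

/-- the integral of `exp (-i K θ)` over the part of `A` in a period -/
noncomputable def av (K : ℕ) (A : Set ℝ) : ℂ :=
  ∫ θ in (0 : ℝ)..(2 * Real.pi), A.indicator (fun θ : ℝ => Complex.exp (-(K * θ * I))) θ

theorem exp_per (K : ℕ) (θ : ℝ) :
    Complex.exp (-(K * ((θ + 2 * Real.pi : ℝ) : ℂ) * I)) = Complex.exp (-(K * θ * I)) := by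
  have e : -(K * ((θ + 2 * Real.pi : ℝ) : ℂ) * I) = -(K * θ * I) - K * (2 * Real.pi * I) := by
    push_cast; ring
  rw [e, Complex.exp_sub, Complex.exp_nat_mul_two_pi_mul_I, div_one]

theorem av_shift (K : ℕ) (A : Set ℝ) (hA : ∀ θ, θ + 2 * Real.pi ∈ A ↔ θ ∈ A) (α : ℝ) :
    av K {θ | θ + α ∈ A} = Complex.exp (K * α * I) * av K A := by
  have h1 : ∀ θ : ℝ, ({θ | θ + α ∈ A} : Set ℝ).indicator (fun θ : ℝ => Complex.exp (-(K * θ * I))) θ =
      Complex.exp (K * α * I) * A.indicator (fun θ : ℝ => Complex.exp (-(K * θ * I))) (θ + α) := by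
    intro θ
    by_cases h : θ + α ∈ A
    · rw [Set.indicator_of_mem (show θ ∈ {θ | θ + α ∈ A} from h), Set.indicator_of_mem h, ← Complex.exp_add]
      congr 1; push_cast; ring
    · rw [Set.indicator_of_notMem (show θ ∉ {θ | θ + α ∈ A} from h), Set.indicator_of_notMem h, mul_zero]
  have hp : Function.Periodic (A.indicator (fun θ : ℝ => Complex.exp (-(K * θ * I)))) (2 * Real.pi) := by
    intro θ
    by_cases h : θ ∈ A
    · rw [Set.indicator_of_mem h, Set.indicator_of_mem ((hA θ).2 h), exp_per]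
    · rw [Set.indicator_of_notMem h, Set.indicator_of_notMem fun h' => h ((hA θ).1 h')]
  unfold av
  simp_rw [h1]
  rw [intervalIntegral.integral_const_mul,
    intervalIntegral.integral_comp_add_right (fun θ => A.indicator (fun θ : ℝ => Complex.exp (-(K * θ * I))) θ)]
  congr 1
  rw [zero_add, show 2 * Real.pi + α = α + 2 * Real.pi by ring, hp.intervalIntegral_add_eq α 0, zero_add]

theorem av_sector {K : ℕ} {A : Set ℝ} (hA : MeasurableSet A) {w : ℂ} {ε : ℝ}
    (h : ∀ θ ∈ A, ‖Complex.exp (-(K * θ * I)) * w - 1‖ ≤ ε) :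
    ‖av K A * w - ((volume (A ∩ Set.Ioc 0 (2 * Real.pi))).toReal : ℂ)‖ ≤
      ε * (volume (A ∩ Set.Ioc 0 (2 * Real.pi))).toReal := by
  have hpi : (0 : ℝ) ≤ 2 * Real.pi := by positivity
  have hfin : volume (A ∩ Set.Ioc 0 (2 * Real.pi)) < ⊤ :=
    lt_of_le_of_lt (measure_mono Set.inter_subset_right) measure_Ioc_lt_top
  have : IsFiniteMeasure (volume.restrict (A ∩ Set.Ioc 0 (2 * Real.pi))) :=
    ⟨by rwa [Measure.restrict_apply_univ]⟩
  have e1 : av K A = ∫ θ in A ∩ Set.Ioc 0 (2 * Real.pi), Complex.exp (-(K * θ * I)) := by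
    unfold av
    rw [intervalIntegral.integral_of_le hpi, integral_indicator hA, Measure.restrict_restrict hA]
  have hci : IntegrableOn (fun θ : ℝ => Complex.exp (-(K * θ * I))) (A ∩ Set.Ioc 0 (2 * Real.pi)) := by
    refine IntegrableOn.mono_set ?_ Set.inter_subset_right
    exact (Continuous.integrableOn_Ioc (by fun_prop))
  have e2 : ((volume (A ∩ Set.Ioc 0 (2 * Real.pi))).toReal : ℂ) = ∫ θ in A ∩ Set.Ioc 0 (2 * Real.pi), (1 : ℂ) := by
    rw [setIntegral_const, Measure.real]; simp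
  rw [e1, e2, ← integral_mul_const, ← integral_sub (hci.mul_const w) (integrable_const _)]
  refine (norm_setIntegral_le_of_norm_le_const hfin fun θ hθ => h θ hθ.1).trans_eq ?_
  rw [Measure.real]

theorem normalize {v w : ℂ} {μ ε : ℝ} (hμ : 0 < μ) (hw : ‖w‖ = 1) (hε : ε < 1) (h : ‖v * w - μ‖ ≤ ε * μ) :
    v ≠ 0 ∧ ‖v / ‖v‖ * w - 1‖ ≤ 2 * ε := by
  have hv : v ≠ 0 := by
    rintro rfl
    rw [zero_mul, zero_sub, norm_neg, Complex.norm_real, Real.norm_of_nonneg hμ.le] at h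
    nlinarith
  refine ⟨hv, ?_⟩
  have hn : 0 < ‖v‖ := norm_pos_iff.2 hv
  have h1 : |‖v‖ - μ| ≤ ε * μ := by
    have := abs_norm_sub_norm_le (v * w) (μ : ℂ)
    rw [norm_mul, hw, mul_one, Complex.norm_real, Real.norm_of_nonneg hμ.le] at this
    exact this.trans h
  have e : v / ‖v‖ * w - 1 = (v * w - μ) / μ + v * w * ((μ - ‖v‖) / (‖v‖ * μ) : ℝ) := by
    have h2 : (‖v‖ : ℂ) ≠ 0 := by exact_mod_cast hn.ne'
    have h3 : (μ : ℂ) ≠ 0 := by exact_mod_cast hμ.ne'
    push_cast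
    field_simp
    ring
  rw [e]
  refine (norm_add_le _ _).trans ?_
  rw [norm_div, norm_mul, norm_mul, hw, mul_one, Complex.norm_real, Complex.norm_real,
    Real.norm_of_nonneg hμ.le, Real.norm_eq_abs, abs_div, abs_of_pos (mul_pos hn hμ), abs_sub_comm]
  have a1 : ‖v * w - μ‖ / μ ≤ ε := by rw [div_le_iff₀ hμ]; exact h
  have a2 : ‖v‖ * (|‖v‖ - μ| / (‖v‖ * μ)) ≤ ε := by
    have : ‖v‖ * (|‖v‖ - μ| / (‖v‖ * μ)) = |‖v‖ - μ| / μ := by field_simp
    rw [this, div_le_iff₀ hμ]; exact h1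
  linarith

theorem av_meas {D : Type*} [TopologicalSpace D] [MeasurableSpace D] [BorelSpace D] (K : ℕ) (A : D → Set ℝ)
    (hA : MeasurableSet {p : D × ℝ | p.2 ∈ A p.1}) : Measurable fun z => av K (A z) := by
  have hpi : (0 : ℝ) ≤ 2 * Real.pi := by positivity
  unfold av
  simp_rw [intervalIntegral.integral_of_le hpi]
  have h1 : Measurable (fun p : D × ℝ => (A p.1).indicator (fun θ : ℝ => Complex.exp (-(K * θ * I))) p.2) := by
    have : (fun p : D × ℝ => (A p.1).indicator (fun θ : ℝ => Complex.exp (-(K * θ * I))) p.2) =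
        {p : D × ℝ | p.2 ∈ A p.1}.indicator (fun p => Complex.exp (-(K * p.2 * I))) := by
      funext p
      by_cases h : p.2 ∈ A p.1
      · rw [Set.indicator_of_mem h, Set.indicator_of_mem (show p ∈ {p : D × ℝ | p.2 ∈ A p.1} from h)]
      · rw [Set.indicator_of_notMem h, Set.indicator_of_notMem (show p ∉ {p : D × ℝ | p.2 ∈ A p.1} from h)]
    rw [this]
    exact (Measurable.indicator (by fun_prop) hA)
  have := h1.stronglyMeasurable.integral_prod_right' (ν := volume.restrict (Set.Ioc (0 : ℝ) (2 * Real.pi)))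
  exact this.measurable

end Pool.Agent.NH62.LR
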