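import Pool.Agent.NH62.LR.B
import Pool.Agent.W821.TB.Rigid

/-!
# Analytic families of relative periodic solutions
-/

set_option autoImplicit false

namespace Pool.Agent.NH62.LR

open Pool.Agent.W821.TB Filter Topology Complex

variable {n : ℕ} {m : Fin n → ℝ}

/-- solutions that start near `w 0` stay near `w` on compact time intervals -/
theorem tend {w : ℝ → Ph n} (hw : IsSol m Set.univ w) {y : ℕ → ℝ → Ph n} (hy : ∀ j, IsSol m Set.univ (y j))
    (h0 : Tendsto (fun j => y j 0) atTop (𝓝 (w 0))) {T : ℝ} {ε : ℝ} (hε : 0 < ε) :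
    ∀ᶠ j in atTop, ∀ t ∈ Set.Icc 0 T, dist (y j t) (w t) ≤ ε := by
  have hγ : IsCompact (w '' Set.Icc 0 T) := isCompact_Icc.image hw.continuous
  obtain ⟨δ, hδ, h₁⟩ := hγ.exists_cthickening_subset_open (isOpen_noColl n)
    (by rintro _ ⟨t, _, rfl⟩; exact (hw.mem t).1)
  obtain ⟨L, hL⟩ := lip_of_compact (m := m) (hγ.cthickening (r := δ)) h₁
  have hη : 0 < min ε δ := lt_min hε hδ
  have hd : Tendsto (fun j => dist (y j 0) (w 0) * Real.exp (L * T)) atTop (𝓝 0) := by
    have h := (tendsto_iff_dist_tendsto_zero.1 h0).mul_const (Real.exp (L * T))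
    rwa [zero_mul] at h
  filter_upwards [hd.eventually (gt_mem_nhds hη)] with j hj
  set s : Set ℝ := {t | dist (y j t) (w t) ≤ min ε δ} with hs
  have hcd : Continuous fun t => dist (y j t) (w t) := (hy j).continuous.dist hw.continuous
  -- Gronwall
  have hgr : ∀ t ∈ Set.Icc 0 T, (∀ r ∈ Set.Ico 0 t, dist (y j r) (w r) ≤ min ε δ) →
      dist (y j t) (w t) < min ε δ := by
    intro t ht hr
    have key := dist_le_of_trajectories_ODE_of_mem (v := fun _ => vf m)
      (s := fun _ => Metric.cthickening δ (w '' Set.Icc 0 T)) (K := L) (f := y j) (g := w)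
      (a := 0) (b := t) (δ := dist (y j 0) (w 0)) (fun _ _ => hL)
      (hy j).continuous.continuousOn (fun r _ => ((hy j).hasDerivAt r).hasDerivWithinAt)
      (fun r hr' => Metric.mem_cthickening_of_dist_le _ (w r) _ _ ⟨r, ⟨hr'.1, hr'.2.le.trans ht.2⟩, rfl⟩
        ((hr r hr').trans (min_le_right _ _)))
      hw.continuous.continuousOn (fun r _ => (hw.hasDerivAt r).hasDerivWithinAt)
      (fun r hr' => Metric.mem_cthickening_of_dist_le _ (w r) _ _ ⟨r, ⟨hr'.1, hr'.2.le.trans ht.2⟩, rfl⟩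
        (by rw [dist_self]; exact hδ.le)) le_rfl t ⟨ht.1, le_rfl⟩
    refine key.trans_lt (lt_of_le_of_lt ?_ hj)
    refine mul_le_mul_of_nonneg_left (Real.exp_le_exp.2 ?_) dist_nonneg
    rw [sub_zero]
    exact mul_le_mul_of_nonneg_left ht.2 L.2
  have hall : ∀ t ∈ Set.Icc 0 T, dist (y j t) (w t) ≤ min ε δ := by
    by_contra hcon
    push Not at hcon
    obtain ⟨t₁, ht₁, hbad⟩ := hcon
    set B : Set ℝ := {t | 0 ≤ t ∧ min ε δ ≤ dist (y j t) (w t)} with hB
    have hBc : IsClosed B := (isClosed_le continuous_const continuous_id).inter (isClosed_le continuous_const hcd)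
    have hBne : B.Nonempty := ⟨t₁, ht₁.1, hbad.le⟩
    have hBb : BddBelow B := ⟨0, fun t ht => ht.1⟩
    have hmem := hBc.csInf_mem hBne hBb
    have hle : sInf B ≤ t₁ := csInf_le hBb ⟨ht₁.1, hbad.le⟩
    have := hgr (sInf B) ⟨hmem.1, hle.trans ht₁.2⟩ fun r hr => by
      by_contra hc
      push Not at hc
      exact absurd (csInf_le hBb (⟨hr.1, hc.le⟩ : r ∈ B)) (not_le.2 hr.2)
    exact absurd hmem.2 (not_le.2 this)
  exact fun t ht => (hall t ht).trans (min_le_left _ _)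

theorem tend_pt {w : ℝ → Ph n} (hw : IsSol m Set.univ w) {y : ℕ → ℝ → Ph n} (hy : ∀ j, IsSol m Set.univ (y j))
    (h0 : Tendsto (fun j => y j 0) atTop (𝓝 (w 0))) {τ : ℕ → ℝ} {τ₀ : ℝ} (hτ0 : ∀ j, 0 ≤ τ j)
    (hτ : Tendsto τ atTop (𝓝 τ₀)) : Tendsto (fun j => y j (τ j)) atTop (𝓝 (w τ₀)) := by
  rw [Metric.tendsto_atTop]
  intro ε hε
  have hτ₀ : 0 ≤ τ₀ := ge_of_tendsto' hτ hτ0
  have h1 := tend hw hy h0 (T := τ₀ + 1) (half_pos hε)
  have h2 : ∀ᶠ j in atTop, τ j < τ₀ + 1 := hτ.eventually (gt_mem_nhds (by linarith))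
  have h3 : ∀ᶠ j in atTop, dist (w (τ j)) (w τ₀) < ε / 2 :=
    (hw.continuous.continuousAt.tendsto.comp hτ).eventually (Metric.ball_mem_nhds _ (half_pos hε))
  obtain ⟨N, hN⟩ := eventually_atTop.1 (h1.and (h2.and h3))
  refine ⟨N, fun j hj => ?_⟩
  obtain ⟨a1, a2, a3⟩ := hN j hj
  have := a1 (τ j) ⟨hτ0 j, a2.le⟩
  calc dist (y j (τ j)) (w τ₀) ≤ dist (y j (τ j)) (w (τ j)) + dist (w (τ j)) (w τ₀) := dist_triangle _ _ _
    _ < ε := by linarith

/-- global version of the rigidity of families -/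
theorem fam (hn : 2 ≤ n) (hm : ∀ a, 0 < m a) {I : Set ℝ} (hI : IsOpen I) (hIc : IsPreconnected I)
    {y : ℝ → ℝ → Ph n} (hA : AnalyticOnNhd ℝ (fun p : ℝ × ℝ => y p.1 p.2) (I ×ˢ Set.univ))
    (hy : ∀ s ∈ I, IsSol m Set.univ (y s)) {S : ℝ → ℝ} (hS : AnalyticOnNhd ℝ S I) (hS0 : ∀ s ∈ I, 0 < S s)
    (hper : ∀ s ∈ I, DistPer (y s) (S s)) {s₀ : ℝ} (hs₀ : s₀ ∈ I) (hne : ¬ IsRelEq (y s₀))
    (hst : LyapunovStable m (Set.range (y s₀))) :
    ∃ (K : ℕ) (c : ℂ), 1 ≤ K ∧ ‖c‖ = 1 ∧ c ^ K = 1 ∧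
      (∀ s ∈ I, (∀ t, y s (t + 2 * S s) = c • y s t) ∧ (∀ t, y s (t + 2 * K * S s) = y s t) ∧
        S s ^ 2 * energy m (y s 0) ^ 3 = S s₀ ^ 2 * energy m (y s₀ 0) ^ 3) := by
  -- local reparametrisation
  have hrep : ∀ s ∈ I, ∃ δ : ℝ, 0 < δ ∧ (∀ u, s + δ * Real.sin u ∈ I) ∧
      ContDiff ℝ 2 (fun p : ℝ × ℝ => y (s + δ * Real.sin p.1) p.2) ∧
      ∀ᶠ v in 𝓝 s, s + δ * Real.sin (Real.arcsin ((v - s) / δ)) = v := by
    intro s hs
    obtain ⟨δ, hδ, hb⟩ := Metric.isOpen_iff.1 hI s hs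
    have hmem : ∀ u, s + δ / 2 * Real.sin u ∈ I := by
      intro u
      apply hb
      rw [Metric.mem_ball, Real.dist_eq, add_sub_cancel_left, abs_mul, abs_of_pos (half_pos hδ)]
      have := Real.abs_sin_le_one u
      nlinarith [half_pos hδ]
    refine ⟨δ / 2, half_pos hδ, hmem, ?_, ?_⟩
    · rw [contDiff_iff_contDiffAt]
      intro p
      have h1 : ContDiffAt ℝ 2 (fun p : ℝ × ℝ => y p.1 p.2) (s + δ / 2 * Real.sin p.1, p.2) :=
        (hA _ ⟨hmem p.1, Set.mem_univ _⟩).contDiffAt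
      have h2 : ContDiffAt ℝ 2 (fun p : ℝ × ℝ => (s + δ / 2 * Real.sin p.1, p.2)) p := by fun_prop
      exact ContDiffAt.comp p h1 h2
    · have : ∀ᶠ v in 𝓝 s, dist v s < δ / 2 := Metric.ball_mem_nhds s (half_pos hδ)
      filter_upwards [this] with v hv
      rw [Real.dist_eq] at hv
      have h3 := abs_lt.1 hv
      rw [Real.sin_arcsin]
      · field_simp; ring
      · rw [le_div_iff₀ (half_pos hδ)]; linarith
      · rw [div_le_iff₀ (half_pos hδ)]; linarith
  have harc : ∀ (s δ : ℝ), Tendsto (fun v => Real.arcsin ((v - s) / δ)) (𝓝 s) (𝓝 0) := by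
    intro s δ
    have : Continuous fun v => Real.arcsin ((v - s) / δ) := by fun_prop
    have h := this.tendsto s
    simpa using h
  -- the local theorem at `s₀`
  rcases final hn hm (hy s₀ hs₀) (hS0 s₀ hs₀) (hper s₀ hs₀) hst with h | ⟨K, hK, hrot, -⟩
  · exact absurd h hne
  obtain ⟨δ, hδ, hδI, hδC, hδe⟩ := hrep s₀ hs₀
  have hSr : Differentiable ℝ (fun u => S (s₀ + δ * Real.sin u)) := by
    intro u
    have h1 : DifferentiableAt ℝ S (s₀ + δ * Real.sin u) := (hS _ (hδI u)).differentiableAt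
    have h2 : DifferentiableAt ℝ (fun u => s₀ + δ * Real.sin u) u := by fun_prop
    exact DifferentiableAt.comp u h1 h2
  obtain ⟨c, hc, ε, hε, hloc⟩ := rigid hn hm (y := fun u => y (s₀ + δ * Real.sin u)) hδC
    (fun u => hy _ (hδI u)) (S := fun u => S (s₀ + δ * Real.sin u)) hSr (fun u => hS0 _ (hδI u))
    (fun u => hper _ (hδI u)) (by simpa using hne) (by simpa using hst)
  have hlocs : ∀ᶠ v in 𝓝 s₀, ∀ t, y v (t + 2 * S v) = c • y v t := by
    filter_upwards [hδe, (harc s₀ δ).eventually (Metric.ball_mem_nhds 0 hε)] with v hv hv2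
    have := (hloc (Real.arcsin ((v - s₀) / δ)) (by simpa [Real.dist_eq] using hv2)).1
    simp only [hv] at this
    exact this
  have hcK : c ^ K = 1 := by
    refine (hrot c hc).1 fun t => ⟨t + 2 * S s₀, ?_⟩
    exact hlocs.self_of_nhds t
  -- analytic continuation
  have hglob : ∀ s ∈ I, ∀ t, y s (t + 2 * S s) = c • y s t := by
    intro s hs t
    have hf : AnalyticOnNhd ℝ (fun s => y s (t + 2 * S s) - c • y s t) I := by
      intro v hv
      have h1 : AnalyticAt ℝ (fun s : ℝ => (s, t + 2 * S s)) v :=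
        analyticAt_id.prod (analyticAt_const.add (analyticAt_const.mul (hS v hv)))
      have h2 : AnalyticAt ℝ (fun s : ℝ => (s, t)) v := analyticAt_id.prod analyticAt_const
      have h3 : AnalyticAt ℝ ((fun p : ℝ × ℝ => y p.1 p.2) ∘ (fun s : ℝ => (s, t + 2 * S s))) v :=
        AnalyticAt.comp (hA (v, t + 2 * S v) ⟨hv, Set.mem_univ _⟩) h1
      have h4 : AnalyticAt ℝ ((fun p : ℝ × ℝ => y p.1 p.2) ∘ (fun s : ℝ => (s, t))) v :=
        AnalyticAt.comp (hA (v, t) ⟨hv, Set.mem_univ _⟩) h2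
      have h5 : AnalyticAt ℝ (fun s : ℝ => c • y s t) v :=
        (((c • ContinuousLinearMap.id ℝ (Ph n) : Ph n →L[ℝ] Ph n)).analyticAt _).fun_comp h4
      exact h3.sub h5
    have hz : (fun s => y s (t + 2 * S s) - c • y s t) =ᶠ[𝓝 s₀] 0 := by
      filter_upwards [hlocs] with v hv
      simp [hv t]
    have := hf.eqOn_zero_of_preconnected_of_eventuallyEq_zero hIc hs₀ hz hs
    exact sub_eq_zero.1 this
  have hKper : ∀ s ∈ I, ∀ t, y s (t + 2 * K * S s) = y s t := by
    intro s hs t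
    have h2 := iter_smul (hglob s hs) K t
    rw [hcK, one_smul] at h2
    rw [← h2]
    congr 1; ring
  refine ⟨K, c, hK, hc, hcK, fun s hs => ⟨hglob s hs, hKper s hs, ?_⟩⟩
  -- the third law
  have hder : ∀ s ∈ I, HasDerivAt (fun s => (2 * K * S s) ^ 2 * energy m (y s 0) ^ 3) 0 s := by
    intro s hs
    obtain ⟨δ, hδ, hδI, hδC, hδe⟩ := hrep s hs
    have hr0 : s + δ * Real.sin 0 = s := by simp
    have hP : HasDerivAt (fun u => 2 * K * S (s + δ * Real.sin u)) (2 * K * (deriv S s * δ)) 0 := by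
      have h1 : HasDerivAt S (deriv S s) (s + δ * Real.sin 0) := by
        rw [hr0]; exact (hS s hs).differentiableAt.hasDerivAt
      have h2 : HasDerivAt (fun u => s + δ * Real.sin u) δ 0 := by
        have := ((Real.hasDerivAt_sin 0).const_mul δ).const_add s
        simpa using this
      exact (h1.comp (0 : ℝ) h2).const_mul (2 * (K : ℝ))
    have h3 := period_energy (m := m) (y := fun u => y (s + δ * Real.sin u)) hδC (fun u => hy _ (hδI u))
      (P := fun u => 2 * K * S (s + δ * Real.sin u)) (s₀ := 0) hP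
      (Eventually.of_forall fun u => by simpa using hKper _ (hδI u) 0)
    have h4 : HasDerivAt (fun v => Real.arcsin ((v - s) / δ)) (1 / δ) s := by
      have h5 : HasDerivAt (fun v : ℝ => (v - s) / δ) (1 / δ) s := ((hasDerivAt_id s).sub_const s).div_const δ
      have h6 : HasDerivAt Real.arcsin 1 ((s - s) / δ) := by
        have := Real.hasDerivAt_arcsin (x := (s - s) / δ) (by simp) (by simp)
        simpa using this
      have h9 := h6.comp s h5
      rw [one_mul] at h9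
      exact h9
    have h7 : HasDerivAt (fun u => (2 * K * S (s + δ * Real.sin u)) ^ 2 *
        energy m (y (s + δ * Real.sin u) 0) ^ 3) 0 (Real.arcsin ((s - s) / δ)) := by simpa using h3
    have h8 := h7.comp s h4
    rw [zero_mul] at h8
    refine h8.congr_of_eventuallyEq ?_
    filter_upwards [hδe] with v hv
    simp only [Function.comp_apply, hv]
  have hconst := hI.is_const_of_deriv_eq_zero hIc
    (fun s hs => (hder s hs).differentiableAt.differentiableWithinAt) (fun s hs => (hder s hs).deriv) hs hs₀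
  have hKpos : (0 : ℝ) < K := by exact_mod_cast hK
  have h4 : (4 * (K : ℝ) ^ 2) * (S s ^ 2 * energy m (y s 0) ^ 3) =
      (4 * (K : ℝ) ^ 2) * (S s₀ ^ 2 * energy m (y s₀ 0) ^ 3) := by linear_combination hconst
  exact mul_left_cancel₀ (by positivity) h4

end Pool.Agent.NH62.LR
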