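import Pool.Agent.NH62.LR.D

/-!
# Analytic families of relative periodic solutions and their limits
-/

set_option autoImplicit false

namespace Pool.Agent.NH62.LR

open Pool.Agent.W821.TB Filter Topology Complex

variable {n : ℕ} {m : Fin n → ℝ}

theorem famlim (hn : 2 ≤ n) (hm : ∀ a, 0 < m a) {I : Set ℝ} (hI : IsOpen I) (hIc : IsPreconnected I)
    {y : ℝ → ℝ → Ph n} (hA : AnalyticOnNhd ℝ (fun p : ℝ × ℝ => y p.1 p.2) (I ×ˢ Set.univ))
    (hy : ∀ s ∈ I, IsSol m Set.univ (y s)) {S : ℝ → ℝ} (hS : AnalyticOnNhd ℝ S I) (hS0 : ∀ s ∈ I, 0 < S s)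
    (hper : ∀ s ∈ I, DistPer (y s) (S s)) {s₀ : ℝ} (hs₀ : s₀ ∈ I) (hne : ¬ IsRelEq (y s₀))
    (hst : LyapunovStable m (Set.range (y s₀))) :
    ∃ (K : ℕ) (c : ℂ), 1 ≤ K ∧ c ^ K = 1 ∧
      (∀ s ∈ I, (∀ t, y s (t + 2 * S s) = c • y s t) ∧ (∀ t, y s (t + 2 * K * S s) = y s t) ∧
        S s ^ 2 * energy m (y s 0) ^ 3 = S s₀ ^ 2 * energy m (y s₀ 0) ^ 3) ∧
      ∀ (w : ℝ → Ph n) (S₀ : ℝ) (σ : ℕ → ℝ), IsSol m Set.univ w → (∀ j, σ j ∈ I) →
        Tendsto (fun j => y (σ j) 0) atTop (𝓝 (w 0)) → Tendsto (fun j => S (σ j)) atTop (𝓝 S₀) →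
        (∀ t, w (t + 2 * S₀) = c • w t) ∧
          ∀ ω : ℝ, (∀ t : ℝ, w t = Complex.exp (ω * t * Complex.I) • w 0) → ∃ k : ℤ, K * ω * S₀ = Real.pi * k := by
  obtain ⟨K, c, hK, hc, hcK, hfam⟩ := fam hn hm hI hIc hA hy hS hS0 hper hs₀ hne hst
  refine ⟨K, c, hK, hcK, hfam, ?_⟩
  intro w S₀ σ hw hσ hlim hSlim
  have hj : ∀ j, IsSol m Set.univ (y (σ j)) := fun j => hy _ (hσ j)
  have h1 : Tendsto (fun j => y (σ j) (2 * S (σ j))) atTop (𝓝 (w (2 * S₀))) :=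
    tend_pt hw hj hlim (fun j => by have := hS0 _ (hσ j); positivity) (hSlim.const_mul 2)
  have h2 : Tendsto (fun j => y (σ j) (2 * S (σ j))) atTop (𝓝 (c • w 0)) := by
    have h3 : (fun j => y (σ j) (2 * S (σ j))) = fun j => c • y (σ j) 0 := by
      funext j
      have := (hfam _ (hσ j)).1 0
      rwa [zero_add] at this
    rw [h3]
    exact hlim.const_smul c
  have h0 := tendsto_nhds_unique h1 h2
  have hall : (fun t => w (t + 2 * S₀)) = fun t => c • w t :=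
    sol_unique (m := m) (t₀ := 0) (hw.shift (2 * S₀)) (hw.smul hc) (by simpa using h0)
  refine ⟨fun t => congrFun hall t, fun ω hω => ?_⟩
  obtain ⟨b, hb⟩ := exists_ne_zero hn (hw.mem 0)
  have h4 : Complex.exp (ω * (2 * S₀ : ℝ) * Complex.I) = c := by
    have h5 := (hω (2 * S₀)).symm.trans h0
    have h6 := congrArg (fun z : Ph n => z.1 b) h5
    simp only [Prod.smul_fst, Pi.smul_apply, smul_eq_mul] at h6
    exact mul_right_cancel₀ hb h6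
  have h7 : Complex.exp (K * (ω * (2 * S₀ : ℝ) * Complex.I)) = 1 := by
    rw [Complex.exp_nat_mul, h4, hcK]
  obtain ⟨k, hk⟩ := Complex.exp_eq_one_iff.1 h7
  refine ⟨k, ?_⟩
  have h8 : ((K * ω * S₀ : ℝ) : ℂ) = ((Real.pi * k : ℝ) : ℂ) := by
    have h9 : (2 * Complex.I : ℂ) ≠ 0 := mul_ne_zero two_ne_zero Complex.I_ne_zero
    refine mul_right_cancel₀ h9 ?_
    push_cast at hk ⊢
    linear_combination hk
  exact_mod_cast h8

end Pool.Agent.NH62.LR
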