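import Pool.Agent.NH62.LR.B
import Pool.Agent.NH62.LR.C

/-!
# The additional first integral
-/

set_option autoImplicit false

namespace Pool.Agent.NH62.LR

open Pool.Agent.W821.TB Filter Topology MeasureTheory Complex

variable {n : ℕ} {m : Fin n → ℝ}

/-- all points of forward solutions that start in `V` -/
def flowout (m : Fin n → ℝ) (V : Set (Ph n)) : Set (Ph n) :=
  {z | ∃ y, IsSol m (Set.Ici 0) y ∧ y 0 ∈ V ∧ ∃ t, 0 ≤ t ∧ y t = z}

/-- the rotations that finally move the forward solution from `z` into `F` -/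
def As (m : Fin n → ℝ) (F : Set (Ph n)) (z : Ph n) : Set ℝ :=
  {θ | ∃ y, IsSol m (Set.Ici 0) y ∧ y 0 = z ∧ ∃ N : ℕ, ∀ t : ℝ, (N : ℝ) ≤ t → Complex.exp (θ * I) • y t ∈ F}

theorem As_per (F : Set (Ph n)) (z : Ph n) (θ : ℝ) : θ + 2 * Real.pi ∈ As m F z ↔ θ ∈ As m F z := by
  have e : Complex.exp (((θ + 2 * Real.pi : ℝ) : ℂ) * I) = Complex.exp (θ * I) := by
    push_cast
    rw [add_mul, Complex.exp_add, Complex.exp_two_pi_mul_I, mul_one]
  unfold As
  simp only [Set.mem_ofPred_eq, e]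

theorem As_rot (F : Set (Ph n)) (z : Ph n) (α : ℝ) :
    As m F (Complex.exp (α * I) • z) = {θ | θ + α ∈ As m F z} := by
  have key : ∀ (z : Ph n) (α θ : ℝ), θ + α ∈ As m F z → θ ∈ As m F (Complex.exp (α * I) • z) := by
    rintro z α θ ⟨y, hy, h0, N, hN⟩
    refine ⟨fun t => Complex.exp (α * I) • y t, fwd_smul hy (norm_expI α), by simp only [h0], N, fun t ht => ?_⟩
    have := hN t ht
    rw [smul_smul, ← Complex.exp_add]
    have e : (θ : ℂ) * I + α * I = ((θ + α : ℝ) : ℂ) * I := by push_cast; ring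
    rwa [e]
  ext θ
  constructor
  · intro h
    have h2 : (θ + α) + (-α) ∈ As m F (Complex.exp (α * I) • z) := by simpa using h
    have h3 := key _ (-α) (θ + α) h2
    rw [smul_smul, ← Complex.exp_add] at h3
    have e : ((-α : ℝ) : ℂ) * I + α * I = 0 := by push_cast; ring
    rwa [e, Complex.exp_zero, one_smul] at h3
  · intro h
    exact key z α θ h

theorem As_flow (F : Set (Ph n)) {y : ℝ → Ph n} (hy : IsSol m (Set.Ici 0) y) {s : ℝ} (hs : 0 ≤ s) :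
    As m F (y s) = As m F (y 0) := by
  ext θ
  constructor
  · rintro ⟨y', hy', h0, N, hN⟩
    refine ⟨y, hy, rfl, N + ⌈s⌉₊, fun t ht => ?_⟩
    push_cast at ht
    have h1 : s ≤ (⌈s⌉₊ : ℝ) := Nat.le_ceil s
    have h2 : (0 : ℝ) ≤ N := Nat.cast_nonneg N
    have e := uniq hy' (fwd_shift hy hs) (by simp [h0]) (t := t - s) (by linarith)
    simp only [sub_add_cancel] at e
    rw [← e]
    exact hN (t - s) (by linarith)
  · rintro ⟨y', hy', h0, N, hN⟩
    refine ⟨fun t => y (t + s), fwd_shift hy hs, by simp, N, fun t ht => ?_⟩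
    have h2 : (0 : ℝ) ≤ N := Nat.cast_nonneg N
    have e := uniq hy' hy h0 (t := t + s) (by linarith)
    show Complex.exp (θ * I) • y (t + s) ∈ F
    rw [← e]
    exact hN (t + s) (by linarith)

/-- the integral -/
noncomputable def Phi (m : Fin n → ℝ) (F : Set (Ph n)) (K : ℕ) (z : Ph n) : ℂ :=
  av K (As m F z) / ‖av K (As m F z)‖

theorem Phi_flow (F : Set (Ph n)) (K : ℕ) {y : ℝ → Ph n} (hy : IsSol m (Set.Ici 0) y) {s : ℝ} (hs : 0 ≤ s) :
    Phi m F K (y s) = Phi m F K (y 0) := by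
  unfold Phi
  rw [As_flow F hy hs]

theorem Phi_rot (F : Set (Ph n)) (K : ℕ) (z : Ph n) {c : ℂ} (hc : ‖c‖ = 1) :
    Phi m F K (c • z) = c ^ K * Phi m F K z := by
  obtain ⟨α, rfl⟩ := exists_angle hc
  unfold Phi
  rw [As_rot, av_shift K _ (As_per F z) α, norm_mul]
  have e : Complex.exp (K * α * I) = Complex.exp (α * I) ^ K := by
    rw [← Complex.exp_nat_mul]; congr 1; ring
  rw [e, norm_pow, hc, one_pow, one_mul, mul_div_assoc]

section tubes

variable {F U₂ : Set (Ph n)} {K : ℕ} {ε : ℝ}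

/-- the union of the rotated copies of `F` -/
def rotF (F : Set (Ph n)) : Set (Ph n) := (fun p : ℂ × Ph n => p.1 • p.2) '' (Metric.sphere (0 : ℂ) 1 ×ˢ F)

theorem mem_rotF {c : ℂ} (hc : ‖c‖ = 1) {z : Ph n} (h : c • z ∈ F) : z ∈ rotF F := by
  have hc0 : c ≠ 0 := by rintro rfl; simp at hc
  refine ⟨(c⁻¹, c • z), ⟨by simp [hc], h⟩, ?_⟩
  simp only
  rw [smul_smul, inv_mul_cancel₀ hc0, one_smul]

theorem rotF_compact (hF : IsCompact F) : IsCompact (rotF F) :=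
  ((isCompact_sphere 0 1).prod hF).image (by fun_prop)

theorem rotF_noColl (hF : ∀ z ∈ F, ∀ a b, a ≠ b → z.1 a ≠ z.1 b) :
    ∀ z ∈ rotF F, ∀ a b, a ≠ b → z.1 a ≠ z.1 b := by
  rintro _ ⟨⟨c, z⟩, ⟨hc, hz⟩, rfl⟩ a b hab h
  have hc0 : c ≠ 0 := by
    rintro rfl
    simp at hc
  refine hF z hz a b hab ?_
  simpa [hc0] using h

/-- the rotated copies of `U₂` -/
def rotU (U : Set (Ph n)) : Set (Ph n) := {z | ∃ c : ℂ, ‖c‖ = 1 ∧ c • z ∈ U}

/-- two rotations that finally move a solution into `F` differ almost by a `K`-th root of unity -/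
theorem As_close (htube : ∀ z ∈ F, ∀ c : ℂ, ‖c‖ = 1 → c • z ∈ F → ‖c ^ K - 1‖ ≤ ε) {z : Ph n} {θ θ₀ : ℝ}
    (h : θ ∈ As m F z) (h₀ : θ₀ ∈ As m F z) :
    ‖Complex.exp (-(K * θ * I)) * Complex.exp (K * θ₀ * I) - 1‖ ≤ ε := by
  obtain ⟨y, hy, h0, N, hN⟩ := h
  obtain ⟨y', hy', h0', N', hN'⟩ := h₀
  have t0 : (0 : ℝ) ≤ (N : ℝ) + N' := by positivity
  have e := uniq hy hy' (h0.trans h0'.symm) t0
  have a1 := hN ((N : ℝ) + N') (by linarith [(Nat.cast_nonneg N' : (0 : ℝ) ≤ N')])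
  have a2 := hN' ((N : ℝ) + N') (by linarith [(Nat.cast_nonneg N : (0 : ℝ) ≤ N)])
  rw [← e] at a2
  have key := htube _ a1 (Complex.exp (((θ₀ - θ : ℝ) : ℂ) * I)) (norm_expI _) (by
    rw [smul_smul, ← Complex.exp_add]
    have : ((θ₀ - θ : ℝ) : ℂ) * I + θ * I = θ₀ * I := by push_cast; ring
    rwa [this])
  rw [← Complex.exp_nat_mul] at key
  rw [← Complex.exp_add]
  have : -(K * θ * I) + K * θ₀ * I = (K : ℂ) * (((θ₀ - θ : ℝ) : ℂ) * I) := by push_cast; ring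
  rwa [this]

variable (hst : ∀ y : ℝ → Ph n, IsSol m (Set.Ici 0) y → y 0 ∈ U₂ → ∀ t : ℝ, 0 ≤ t → y t ∈ F)

include hst in
theorem As_mem {y : ℝ → Ph n} (hy : IsSol m (Set.Ici 0) y) {θ : ℝ} (h : Complex.exp (θ * I) • y 0 ∈ U₂) :
    θ ∈ As m F (y 0) :=
  ⟨y, hy, rfl, 0, fun t ht => hst _ (fwd_smul hy (norm_expI θ)) h t (by simpa using ht)⟩

include hst in
/-- a forward solution from each point of `flowout m (rotU U₂)` stays in `rotF F` -/
theorem exists_sol {z : Ph n} (hz : z ∈ flowout m (rotU U₂)) :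
    ∃ y, IsSol m (Set.Ici 0) y ∧ y 0 = z ∧ ∀ t, 0 ≤ t → y t ∈ rotF F := by
  obtain ⟨y, hy, ⟨c, hc, hcy⟩, s, hs, rfl⟩ := hz
  refine ⟨fun t => y (t + s), fwd_shift hy hs, by simp, fun t ht => ?_⟩
  exact mem_rotF hc (hst _ (fwd_smul hy hc) hcy (t + s) (add_nonneg ht hs))

include hst in
theorem meas_As (hF : IsCompact F) (hFn : ∀ z ∈ F, ∀ a b, a ≠ b → z.1 a ≠ z.1 b) :
    MeasurableSet {p : flowout m (rotU U₂) × ℝ | p.2 ∈ As m F p.1} := by
  choose Y hY1 hY2 hY3 using fun z : flowout m (rotU U₂) => exists_sol (m := m) hst z.2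
  obtain ⟨L, hL0, hL⟩ := dep (m := m) (rotF_compact hF) (rotF_noColl hFn)
  have hcont : ∀ t : ℝ, 0 ≤ t → Continuous fun z : flowout m (rotU U₂) => Y z t := by
    intro t ht
    refine continuous_iff_continuousAt.2 fun z => ?_
    rw [ContinuousAt, tendsto_iff_dist_tendsto_zero]
    have h1 : Tendsto (fun z' : flowout m (rotU U₂) => dist (z' : Ph n) z * Real.exp (L * t)) (𝓝 z) (𝓝 0) := by
      have : Continuous fun z' : flowout m (rotU U₂) => dist (z' : Ph n) z * Real.exp (L * t) := by fun_prop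
      have h2 := this.tendsto z
      simpa using h2
    refine squeeze_zero (fun _ => dist_nonneg) (fun z' => ?_) h1
    have := hL _ _ (hY1 z') (hY1 z) (hY3 z') (hY3 z) t ht
    rwa [hY2, hY2] at this
  have hset : {p : flowout m (rotU U₂) × ℝ | p.2 ∈ As m F p.1} =
      ⋃ N : ℕ, ⋂ t : Set.Ici (N : ℝ), {p : flowout m (rotU U₂) × ℝ | Complex.exp (p.2 * I) • Y p.1 t ∈ F} := by
    ext p
    simp only [Set.mem_ofPred_eq, Set.mem_iUnion, Set.mem_iInter]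
    constructor
    · rintro ⟨y, hy, h0, N, hN⟩
      refine ⟨N, fun t => ?_⟩
      have ht : (0 : ℝ) ≤ t := (Nat.cast_nonneg N).trans t.2
      rw [← uniq hy (hY1 p.1) (h0.trans (hY2 p.1).symm) ht]
      exact hN t t.2
    · rintro ⟨N, hN⟩
      exact ⟨Y p.1, hY1 p.1, hY2 p.1, N, fun t ht => hN ⟨t, ht⟩⟩
  rw [hset]
  refine MeasurableSet.iUnion fun N => IsClosed.measurableSet (isClosed_iInter fun t => ?_)
  have ht : (0 : ℝ) ≤ t := (Nat.cast_nonneg N).trans t.2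
  have h1 := hcont t ht
  exact hF.isClosed.preimage (by fun_prop)

include hst in
theorem Phi_meas (hF : IsCompact F) (hFn : ∀ z ∈ F, ∀ a b, a ≠ b → z.1 a ≠ z.1 b) :
    Measurable fun z : flowout m (rotU U₂) => Phi m F K z := by
  have h := av_meas K (fun z : flowout m (rotU U₂) => As m F z) (meas_As hst hF hFn)
  unfold Phi
  fun_prop

include hst in
theorem Phi_val (hF : IsCompact F) (hFn : ∀ z ∈ F, ∀ a b, a ≠ b → z.1 a ≠ z.1 b) (hU₂ : IsOpen U₂)
    (htube : ∀ z ∈ F, ∀ c : ℂ, ‖c‖ = 1 → c • z ∈ F → ‖c ^ K - 1‖ ≤ ε) (hε : ε < 1)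
    {z : Ph n} (hz : z ∈ flowout m (rotU U₂)) {θ₀ : ℝ} (h₀ : θ₀ ∈ As m F z) :
    ‖Phi m F K z‖ = 1 ∧ ‖Phi m F K z * Complex.exp (K * θ₀ * I) - 1‖ ≤ 2 * ε := by
  have hAm : MeasurableSet (As m F z) := by
    have h1 := meas_As (m := m) hst hF hFn
    have h2 : Measurable fun θ : ℝ => ((⟨z, hz⟩, θ) : flowout m (rotU U₂) × ℝ) := by fun_prop
    exact h2 h1
  set μ := (volume (As m F z ∩ Set.Ioc 0 (2 * Real.pi))).toReal with hμ
  have hμ0 : 0 < μ := by
    obtain ⟨y, hy, ⟨c, hc, hcy⟩, s, hs, rfl⟩ := hz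
    have hpi := Real.pi_pos
    have hex : ∃ θ₁ ∈ Set.Icc (0 : ℝ) (2 * Real.pi), Complex.exp (θ₁ * I) = c := by
      obtain ⟨α, rfl⟩ := exists_angle hc
      refine ⟨toIcoMod Real.two_pi_pos 0 α, ?_, ?_⟩
      · have := toIcoMod_mem_Ico Real.two_pi_pos 0 α
        exact ⟨this.1, by simpa using this.2.le⟩
      · rw [toIcoMod]
        have e : ((α - toIcoDiv Real.two_pi_pos 0 α • (2 * Real.pi) : ℝ) : ℂ) * I =
            α * I - (toIcoDiv Real.two_pi_pos 0 α : ℤ) * (2 * Real.pi * I) := by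
          push_cast; simp; ring
        rw [e, Complex.exp_sub, Complex.exp_int_mul_two_pi_mul_I, div_one]
    obtain ⟨θ₁, hθ₁, hθ₁c⟩ := hex
    set B : Set ℝ := {θ | Complex.exp (θ * I) • y 0 ∈ U₂} with hB
    have hBo : IsOpen B := hU₂.preimage (by fun_prop)
    have hBA : B ⊆ As m F (y s) := by
      rw [As_flow F hy hs]
      exact fun θ hθ => As_mem hst hy hθ
    have hne : (B ∩ Set.Ioo 0 (2 * Real.pi)).Nonempty := by
      have h1 : θ₁ ∈ closure (Set.Ioo (0 : ℝ) (2 * Real.pi)) := by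
        rw [closure_Ioo (by positivity)]; exact hθ₁
      exact mem_closure_iff.1 h1 B hBo (by rw [hB, Set.mem_ofPred_eq, hθ₁c]; exact hcy)
    have hpos : 0 < volume (B ∩ Set.Ioo 0 (2 * Real.pi)) := (hBo.inter isOpen_Ioo).measure_pos volume hne
    have hle : volume (B ∩ Set.Ioo 0 (2 * Real.pi)) ≤ volume (As m F (y s) ∩ Set.Ioc 0 (2 * Real.pi)) :=
      measure_mono (Set.inter_subset_inter hBA Set.Ioo_subset_Ioc_self)
    refine ENNReal.toReal_pos (hpos.trans_le hle).ne' ?_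
    exact (lt_of_le_of_lt (measure_mono Set.inter_subset_right) measure_Ioc_lt_top).ne
  have hsec := av_sector (K := K) hAm (w := Complex.exp (K * θ₀ * I)) (ε := ε) fun θ hθ => As_close htube hθ h₀
  have hw : ‖Complex.exp (K * θ₀ * I)‖ = 1 := by
    have e : (K : ℂ) * θ₀ * I = ((K * θ₀ : ℝ) : ℂ) * I := by push_cast; ring
    rw [e]; exact norm_expI _
  obtain ⟨hv, hn⟩ := normalize hμ0 hw hε hsec
  refine ⟨?_, hn⟩
  unfold Phi
  rw [norm_div, Complex.norm_real, norm_norm, div_self (norm_ne_zero_iff.2 hv)]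

end tubes

/-- the main theorem -/
theorem main (hn : 2 ≤ n) (hm : ∀ a, 0 < m a) {x : ℝ → Ph n} (hx : IsSol m Set.univ x) {T : ℝ} (hT0 : 0 < T)
    (hT : DistPer x T) (hst : LyapunovStable m (Set.range x)) (hne : ¬ IsRelEq x) :
    ∃ K : ℕ, 1 ≤ K ∧ (∀ c : ℂ, ‖c‖ = 1 → ((∀ t, c • x t ∈ Set.range x) ↔ c ^ K = 1)) ∧
      ∀ ε : ℝ, 0 < ε → ∃ (U V : Set (Ph n)) (Φ : Ph n → ℂ), IsOpen U ∧ IsOpen V ∧ Set.range x ⊆ U ∧ U ⊆ V ∧
        (∀ z ∈ V, ∀ c : ℂ, ‖c‖ = 1 → c • z ∈ V) ∧ (Measurable fun z : flowout m V => Φ z) ∧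
        ∀ z ∈ flowout m V, ‖Φ z‖ = 1 ∧ (∀ c : ℂ, ‖c‖ = 1 → Φ (c • z) = c ^ K * Φ z) ∧
          (∀ y : ℝ → Ph n, IsSol m (Set.Ici 0) y → y 0 = z → ∀ t : ℝ, 0 ≤ t → Φ (y t) = Φ z) ∧
          (z ∈ U → ‖Φ z - 1‖ ≤ ε) := by
  rcases final hn hm hx hT0 hT hst with h | ⟨K, hK, hrot, U, hU, hxU, -, hper⟩
  · exact absurd h hne
  refine ⟨K, hK, hrot, fun ε hε => ?_⟩
  have hK0 : (0 : ℝ) < K := by exact_mod_cast hK
  have hP : ∀ t, x (t + 2 * K * T) = x t := hper x hx (hxU ⟨0, rfl⟩) T hT0 hT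
  have hε' : 0 < min (ε / 2) (1 / 2) := lt_min (by linarith) (by norm_num)
  obtain ⟨δ, hδ, hF, hFn, htube⟩ := tube hx (P := 2 * K * T) (by positivity) hP hrot hε'
  obtain ⟨U₂, hU₂, hxU₂, hst₂⟩ := hst (Metric.thickening δ (Set.range x)) Metric.isOpen_thickening
    (Metric.self_subset_thickening hδ _)
  have hst₃ : ∀ y : ℝ → Ph n, IsSol m (Set.Ici 0) y → y 0 ∈ U₂ → ∀ t : ℝ, 0 ≤ t →
      y t ∈ Metric.cthickening δ (Set.range x) := fun y hy hy0 t ht =>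
    Metric.thickening_subset_cthickening _ _ (hst₂ y hy hy0 t ht)
  have hlt : min (ε / 2) (1 / 2) < (1 : ℝ) := (min_le_right _ _).trans_lt (by norm_num)
  refine ⟨U₂, rotU U₂, Phi m (Metric.cthickening δ (Set.range x)) K, hU₂, ?_, hxU₂, ?_, ?_, ?_, ?_⟩
  · have : rotU U₂ = ⋃ c : {c : ℂ // ‖c‖ = 1}, {z | (c : ℂ) • z ∈ U₂} := by
      ext z; simp [rotU]
    rw [this]
    exact isOpen_iUnion fun c => hU₂.preimage (by fun_prop)
  · intro z hz
    exact ⟨1, by simp, by simpa using hz⟩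
  · rintro z ⟨d, hd, hdz⟩ c hc
    have hc0 : c ≠ 0 := by rintro rfl; simp at hc
    refine ⟨d * c⁻¹, by simp [hd, hc], ?_⟩
    rw [smul_smul, mul_assoc, inv_mul_cancel₀ hc0, mul_one]
    exact hdz
  · exact Phi_meas hst₃ hF hFn
  · intro z hz
    have hz' := hz
    obtain ⟨y, hy, ⟨c, hc, hcy⟩, s, hs, hyz⟩ := hz'
    obtain ⟨α, rfl⟩ := exists_angle hc
    have hα : α ∈ As m (Metric.cthickening δ (Set.range x)) z := by
      rw [← hyz, As_flow _ hy hs]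
      exact As_mem hst₃ hy hcy
    refine ⟨(Phi_val hst₃ hF hFn hU₂ htube hlt hz hα).1, fun c hc => Phi_rot _ K z hc, ?_, ?_⟩
    · intro y' hy' h0 t ht
      rw [Phi_flow _ K hy' ht, h0]
    · intro hzU
      have h0 : (0 : ℝ) ∈ As m (Metric.cthickening δ (Set.range x)) z := by
        obtain ⟨y', hy', h0', -⟩ := exists_sol hst₃ hz
        rw [← h0']
        refine As_mem hst₃ hy' ?_
        rw [h0']
        simpa using hzU
      have := (Phi_val hst₃ hF hFn hU₂ htube hlt hz h0).2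
      simp only [Complex.ofReal_zero, mul_zero, zero_mul, Complex.exp_zero, mul_one] at this
      refine this.trans ?_
      have := min_le_left (ε / 2) (1 / 2)
      linarith

end Pool.Agent.NH62.LR
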